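import Mathlib
import Pool.Agent.R203.ID.Levy
import Pool.Agent.H847R3.SuppB

/-!
Infinite invariant measures on the circle: shells around zero, reduction, and the associated
infinitely divisible laws.
-/

set_option autoImplicit false
open MeasureTheory Filter Topology
open scoped NNReal ENNReal

namespace Run7.h303.GP.Red

section
open Set
open Pool.Agent.H847R3.XpXq (KU)

/-- uniform hitting, pointwise -/
lemma hit_cover {p q : ℕ} {U : Set UnitAddCircle} (hU : IsOpen U) {c : ℝ} (hc : 0 < c) :
    ∃ S : Finset (ℕ × ℕ), ∀ x : UnitAddCircle, (∀ k ∈ KU p q U, c ≤ dist x k) →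
      ∃ s ∈ S, (p ^ s.1 * q ^ s.2) • x ∈ U := by
  classical
  set E : Set UnitAddCircle := {x : UnitAddCircle | ∀ k ∈ KU p q U, c ≤ dist x k} with hE
  have hEc : IsClosed E := by
    have : E = ⋂ k ∈ KU p q U, {x : UnitAddCircle | c ≤ dist x k} := by ext x; simp [hE]
    rw [this]
    exact isClosed_biInter fun k _ => isClosed_le continuous_const (continuous_id.dist continuous_const)
  have hcover : E ⊆ ⋃ s : ℕ × ℕ, (fun x : UnitAddCircle => (p ^ s.1 * q ^ s.2) • x) ⁻¹' U := by
    intro x hx
    by_contra hcon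
    have hxK : x ∈ KU p q U := by
      intro i j h
      exact hcon (mem_iUnion.2 ⟨(i, j), h⟩)
    have := hx x hxK
    rw [dist_self] at this
    linarith
  obtain ⟨S, hS⟩ := hEc.isCompact.elim_finite_subcover _
    (fun s : ℕ × ℕ => hU.preimage (continuous_const_smul (p ^ s.1 * q ^ s.2))) hcover
  refine ⟨S, fun x hx => ?_⟩
  have h1 := hS hx
  simp only [mem_iUnion, mem_preimage] at h1
  obtain ⟨s, hs, h2⟩ := h1
  exact ⟨s, hs, h2⟩

end

open Pool.Agent.R203.ID

open Pool.Agent.TH654.FC (nsmul_norm_eq norm_le_half)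

lemma mp_pow1 {p : ℕ} {L : Measure TT} (h : MeasurePreserving (fun x : TT => p • x) L L) (n : ℕ) :
    MeasurePreserving (fun x : TT => (p ^ n) • x) L L := by
  induction n with
  | zero =>
    simp only [pow_zero, one_smul]
    exact MeasurePreserving.id L
  | succ n ih =>
    have := h.comp ih
    have e : (fun x : TT => p ^ (n + 1) • x) = (fun x : TT => p • x) ∘ fun x : TT => p ^ n • x := by
      funext x
      simp only [Function.comp]
      rw [← mul_smul, ← pow_succ']
    rw [e]; exact this

lemma exists_far {p : ℕ} (hp : 2 ≤ p) {x : TT} (hx : x ≠ 0) :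
    ∃ n : ℕ, 1 / (2 * (p : ℝ)) ≤ ‖(p ^ n) • x‖ := by
  by_contra hcon
  push Not at hcon
  have hpR : (2 : ℝ) ≤ p := by exact_mod_cast hp
  have h1 : ∀ n : ℕ, ‖(p ^ n) • x‖ = (p : ℝ) ^ n * ‖x‖ := by
    intro n
    induction n with
    | zero => simp
    | succ n ih =>
      rw [pow_succ', mul_smul, nsmul_norm_eq, ih]
      · ring
      · have := hcon n
        rw [lt_div_iff₀ (by positivity)] at this
        linarith
  have h2 : 0 < ‖x‖ := norm_pos_iff.2 hx
  obtain ⟨n, hn⟩ := pow_unbounded_of_one_lt (1 / ‖x‖) (show (1 : ℝ) < p by linarith)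
  have h3 := norm_le_half ((p ^ n) • x)
  rw [h1 n] at h3
  rw [div_lt_iff₀ h2] at hn
  linarith

/-- atoms are bounded -/
lemma atom_bound {p : ℕ} (hp : 2 ≤ p) {L : Measure TT}
    (h : MeasurePreserving (fun x : TT => p • x) L L) {x : TT} (hx : x ≠ 0) :
    L {x} ≤ L {x | 1 / (2 * (p : ℝ)) ≤ ‖x‖} := by
  obtain ⟨n, hn⟩ := exists_far hp hx
  have h1 := (mp_pow1 h n).measure_preimage (measurableSet_singleton ((p ^ n) • x)).nullMeasurableSet
  calc L {x} ≤ L ((fun x : TT => (p ^ n) • x) ⁻¹' {(p ^ n) • x}) := by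
        apply measure_mono
        rintro y rfl
        rfl
    _ = L {(p ^ n) • x} := h1
    _ ≤ _ := by
        apply measure_mono
        rintro y rfl
        exact hn

/-- invariant measures which are finite away from zero have a finite first moment -/
theorem lev_of {p : ℕ} (hp : 2 ≤ p) {L : Measure TT}
    (h : MeasurePreserving (fun x : TT => p • x) L L) (h0 : L {0} = 0)
    (hfin : ∀ r : ℝ, 0 < r → L {x | r ≤ ‖x‖} < ⊤) : Lev L := by
  refine ⟨h0, hfin, ?_⟩
  have hpR : (2 : ℝ) ≤ p := by exact_mod_cast hp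
  have hp0 : (0 : ℝ) < p := by linarith
  set y : ℝ := 1 / p with hy
  have hy0 : 0 < y := by positivity
  have hy1 : y < 1 := by rw [hy, div_lt_one hp0]; linarith
  have hpy : (p : ℝ) * y = 1 := by rw [hy]; field_simp
  set r0 : ℝ := 1 / (2 * p) with hr0
  have hr00 : 0 < r0 := by positivity
  have hpr0 : (p : ℝ) * r0 = 1 / 2 := by rw [hr0]; field_simp
  set S : ℕ → Set TT := fun k => {x | r0 * y ^ (k + 1) < ‖x‖ ∧ ‖x‖ ≤ r0 * y ^ k} with hS
  have hSm : ∀ k, MeasurableSet (S k) := fun k =>
    ((isOpen_lt continuous_const continuous_norm).measurableSet).inter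
      ((isClosed_le continuous_norm continuous_const).measurableSet)
  set a := L {x | r0 * y ≤ ‖x‖} with ha
  have ha' : a < ⊤ := hfin _ (by positivity)
  have hSa : ∀ k, L (S k) ≤ a := by
    intro k
    induction k with
    | zero =>
      apply measure_mono
      intro x hx
      have := hx.1
      rw [zero_add, pow_one] at this
      exact this.le
    | succ k ih =>
      refine le_trans ?_ ih
      rw [← h.measure_preimage (hSm k).nullMeasurableSet]
      apply measure_mono
      intro x hx
      obtain ⟨h1, h2⟩ := hx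
      have hy2 : y ^ (k + 1) ≤ y := by
        rw [pow_succ]
        exact mul_le_of_le_one_left hy0.le (pow_le_one₀ hy0.le hy1.le)
      have h3 : ‖p • x‖ = p * ‖x‖ := by
        apply nsmul_norm_eq
        calc (p : ℝ) * ‖x‖ ≤ p * (r0 * y ^ (k + 1)) := mul_le_mul_of_nonneg_left h2 hp0.le
          _ = (p * r0) * y ^ (k + 1) := by ring
          _ ≤ 1 / 2 := by
            rw [hpr0]
            have : y ^ (k + 1) ≤ 1 := pow_le_one₀ hy0.le hy1.le
            linarith
      show r0 * y ^ (k + 1) < ‖p • x‖ ∧ ‖p • x‖ ≤ r0 * y ^ k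
      rw [h3]
      constructor
      · calc r0 * y ^ (k + 1) = p * (r0 * y ^ (k + 1 + 1)) := by
              rw [pow_succ y (k + 1)]
              linear_combination (-(r0 * y ^ (k + 1))) * hpy
          _ < p * ‖x‖ := mul_lt_mul_of_pos_left h1 hp0
      · calc p * ‖x‖ ≤ p * (r0 * y ^ (k + 1)) := mul_le_mul_of_nonneg_left h2 hp0.le
          _ = r0 * y ^ k := by
              rw [pow_succ y k]
              linear_combination (r0 * y ^ k) * hpy
  -- the cover
  have hcov : (Set.univ : Set TT) ⊆ {0} ∪ ({x | r0 ≤ ‖x‖} ∪ ⋃ k, S k) := by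
    intro x _
    by_cases hx : x = 0
    · exact Or.inl hx
    · right
      by_cases hx2 : r0 ≤ ‖x‖
      · exact Or.inl hx2
      · right
        push Not at hx2
        have h1 : 0 < ‖x‖ / r0 := div_pos (norm_pos_iff.2 hx) hr00
        have h2 : ‖x‖ / r0 ≤ 1 := by rw [div_le_one hr00]; exact hx2.le
        obtain ⟨k, hk1, hk2⟩ := exists_nat_pow_near_of_lt_one h1 h2 hy0 hy1
        rw [Set.mem_iUnion]
        refine ⟨k, ?_, ?_⟩
        · rw [lt_div_iff₀ hr00] at hk1; linarith
        · rw [div_le_iff₀ hr00] at hk2; linarith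
  have hmeas : Measurable fun x : TT => ‖x‖ := continuous_norm.measurable
  refine ⟨hmeas.aestronglyMeasurable, ?_⟩
  rw [hasFiniteIntegral_iff_norm]
  simp only [norm_norm]
  have hle : ∫⁻ x, ENNReal.ofReal ‖x‖ ∂L ≤ 0 + (L {x | r0 ≤ ‖x‖} +
      ∑' k, ENNReal.ofReal (r0 * y ^ k) * a) := by
    calc ∫⁻ x, ENNReal.ofReal ‖x‖ ∂L = ∫⁻ x in Set.univ, ENNReal.ofReal ‖x‖ ∂L := by
          rw [Measure.restrict_univ]
      _ ≤ ∫⁻ x in {0} ∪ ({x | r0 ≤ ‖x‖} ∪ ⋃ k, S k), ENNReal.ofReal ‖x‖ ∂L :=
          lintegral_mono_set hcov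
      _ ≤ ∫⁻ x in {0}, ENNReal.ofReal ‖x‖ ∂L + ∫⁻ x in {x | r0 ≤ ‖x‖} ∪ ⋃ k, S k,
            ENNReal.ofReal ‖x‖ ∂L := lintegral_union_le _ _ _
      _ ≤ 0 + (L {x | r0 ≤ ‖x‖} + ∑' k, ENNReal.ofReal (r0 * y ^ k) * a) := by
          apply add_le_add
          · rw [setLIntegral_measure_zero _ _ h0]
          · refine (lintegral_union_le _ _ _).trans ?_
            apply add_le_add
            · calc ∫⁻ x in {x | r0 ≤ ‖x‖}, ENNReal.ofReal ‖x‖ ∂L
                  ≤ ∫⁻ _x in {x | r0 ≤ ‖x‖}, 1 ∂L := by
                    apply lintegral_mono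
                    intro x
                    rw [← ENNReal.ofReal_one]
                    apply ENNReal.ofReal_le_ofReal
                    have := norm_le_half x
                    linarith
                _ = L {x | r0 ≤ ‖x‖} := by simp
            · refine (lintegral_iUnion_le _ _).trans ?_
              apply ENNReal.tsum_le_tsum
              intro k
              calc ∫⁻ x in S k, ENNReal.ofReal ‖x‖ ∂L
                  ≤ ∫⁻ _x in S k, ENNReal.ofReal (r0 * y ^ k) ∂L := by
                    apply setLIntegral_mono measurable_const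
                    intro x hx
                    exact ENNReal.ofReal_le_ofReal hx.2
                _ = ENNReal.ofReal (r0 * y ^ k) * L (S k) := by simp
                _ ≤ _ := by gcongr; exact hSa k
  refine hle.trans_lt ?_
  rw [zero_add, ENNReal.tsum_mul_right]
  apply ENNReal.add_lt_top.2
  refine ⟨hfin _ hr00, ?_⟩
  apply ENNReal.mul_lt_top _ ha'
  rw [← ENNReal.ofReal_tsum_of_nonneg (fun k => by positivity)
    ((summable_geometric_of_lt_one hy0.le hy1).mul_left r0)]
  exact ENNReal.ofReal_lt_top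

/-- removing the mass at zero -/
lemma mp_restrict {p : ℕ} {M : Measure TT}
    (h : MeasurePreserving (fun x : TT => p • x) M M) (h0 : M {0} ≠ ⊤) :
    MeasurePreserving (fun x : TT => p • x) (M.restrict {0}ᶜ) (M.restrict {0}ᶜ) := by
  have hs : MeasurableSet ({0}ᶜ : Set TT) := (measurableSet_singleton 0).compl
  have h1 := h.restrict_preimage hs
  have h2 : ((fun x : TT => p • x) ⁻¹' {0}ᶜ) =ᵐ[M] ({0}ᶜ : Set TT) := by
    rw [Set.preimage_compl]
    apply ae_eq_set_compl_compl.2
    have h3 : M ((fun x : TT => p • x) ⁻¹' {0}) = M {0} :=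
      h.measure_preimage (measurableSet_singleton 0).nullMeasurableSet
    have h4 : ({0} : Set TT) ⊆ (fun x : TT => p • x) ⁻¹' {0} := by
      rintro x rfl
      simp
    exact (ae_eq_of_subset_of_measure_ge h4 h3.le (measurableSet_singleton 0).nullMeasurableSet
      (by rw [h3]; exact h0)).symm
  rwa [Measure.restrict_congr_set h2] at h1

lemma mp_map_nsmul {p d : ℕ} {M : Measure TT} (h : MeasurePreserving (fun x : TT => p • x) M M) :
    MeasurePreserving (fun x : TT => p • x) (M.map fun x => d • x) (M.map fun x => d • x) := by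
  have hd : Measurable fun x : TT => d • x := by fun_prop
  have hp : Measurable fun x : TT => p • x := by fun_prop
  refine ⟨hp, ?_⟩
  rw [Measure.map_map hp hd]
  have e : (fun x : TT => p • x) ∘ (fun x : TT => d • x) =
      (fun x : TT => d • x) ∘ fun x : TT => p • x := by
    funext x
    simp only [Function.comp]
    rw [smul_comm]
  rw [e, ← Measure.map_map hd hp, h.map_eq]

lemma singleton_lt_top (L : Measure TT) [SigmaFinite L] (x : TT) : L {x} < ⊤ :=
  (measure_mono (Set.singleton_subset_iff.2 (mem_spanningSetsIndex L x))).trans_lt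
    (measure_spanningSets_lt_top L _)

lemma finite_lt_top (L : Measure TT) [SigmaFinite L] {s : Set TT} (hs : s.Finite) : L s < ⊤ := by
  have : s = ⋃ x ∈ s, {x} := by simp
  rw [this]
  exact measure_biUnion_lt_top hs fun x _ => singleton_lt_top L x

/-- **From an infinite invariant measure to an atomless infinitely divisible one.** -/
theorem exists_id {p q : ℕ} (hp : 2 ≤ p) (hq : 2 ≤ q)
    (hirr : Irrational (Real.log (p : ℝ) / Real.log (q : ℝ))) (L : Measure TT) [SigmaFinite L]
    (h1 : MeasurePreserving (fun x : TT => p • x) L L)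
    (h2 : MeasurePreserving (fun x : TT => q • x) L L) {U : Set TT} (hU : IsOpen U)
    (hne : U.Nonempty) (hLU : L U < ⊤) (hinf : L Set.univ = ⊤) :
    ∃ ν : Measure TT, IsProbabilityMeasure ν ∧ (∀ x, ν {x} = 0) ∧
      MeasurePreserving (fun x : TT => p • x) ν ν ∧ MeasurePreserving (fun x : TT => q • x) ν ν ∧
      (∀ n : ℕ, 1 ≤ n → ∃ ρ : Measure TT, IsProbabilityMeasure ρ ∧ nfold n ρ = ν) ∧
      ν ≠ volume := by
  classical
  obtain ⟨d, hd, hdK⟩ := Pool.Agent.H847R3.XpXq.exists_den hp
    (Pool.Agent.H847R3.XpXq.KU_finite hp hq hirr hU hne) (Pool.Agent.H847R3.XpXq.KU_inv p q U)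
  have hd0 : (0 : ℝ) < d := by exact_mod_cast hd
  have hdm : Measurable fun x : TT => d • x := by fun_prop
  set M : Measure TT := L.map fun x => d • x with hM
  have hMp : MeasurePreserving (fun x : TT => p • x) M M := mp_map_nsmul h1
  have hMq : MeasurePreserving (fun x : TT => q • x) M M := mp_map_nsmul h2
  have htor : L {x : TT | d • x = 0} < ⊤ :=
    finite_lt_top L (AddCircle.finite_torsion (p := (1 : ℝ)) (by omega : 0 < d))
  have hM0 : M {0} ≠ ⊤ := by
    rw [hM, Measure.map_apply hdm (measurableSet_singleton 0)]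
    exact htor.ne
  set L' : Measure TT := M.restrict {0}ᶜ with hL'
  have hp' : MeasurePreserving (fun x : TT => p • x) L' L' := mp_restrict hMp hM0
  have hq' : MeasurePreserving (fun x : TT => q • x) L' L' := mp_restrict hMq hM0
  have hpres : ∀ i j : ℕ, MeasurePreserving (fun x : TT => (p ^ i * q ^ j) • x) L L := by
    intro i j
    have := (mp_pow1 h1 i).comp (mp_pow1 h2 j)
    have e : (fun x : TT => (p ^ i * q ^ j) • x) =
        (fun x : TT => p ^ i • x) ∘ fun x : TT => q ^ j • x := by
      funext x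
      simp only [Function.comp]
      rw [← mul_smul]
    rw [e]; exact this
  have hfin : ∀ r : ℝ, 0 < r → L' {x | r ≤ ‖x‖} < ⊤ := by
    intro r hr
    have hrm : MeasurableSet {x : TT | r ≤ ‖x‖} :=
      (isClosed_le continuous_const continuous_norm).measurableSet
    obtain ⟨S, hS⟩ := hit_cover (p := p) (q := q) hU
      (show 0 < r / d by positivity)
    calc L' {x | r ≤ ‖x‖} ≤ M {x | r ≤ ‖x‖} := Measure.restrict_le_self _
      _ = L ((fun x : TT => d • x) ⁻¹' {x | r ≤ ‖x‖}) := by rw [hM, Measure.map_apply hdm hrm]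
      _ ≤ L (⋃ s ∈ S, (fun x : TT => (p ^ s.1 * q ^ s.2) • x) ⁻¹' U) := by
          apply measure_mono
          intro x hx
          have hx' : r ≤ ‖d • x‖ := hx
          obtain ⟨s, hs, hsU⟩ := hS x (fun k hk => by
            have h3 : d • x = d • (x - k) := by rw [nsmul_sub, hdK k hk, sub_zero]
            rw [h3] at hx'
            have h4 := norm_nsmul_le (n := d) (a := x - k)
            rw [dist_eq_norm, div_le_iff₀ hd0]
            linarith)
          simp only [Set.mem_iUnion, Set.mem_preimage]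
          exact ⟨s, hs, hsU⟩
      _ ≤ ∑ s ∈ S, L ((fun x : TT => (p ^ s.1 * q ^ s.2) • x) ⁻¹' U) :=
          measure_biUnion_finset_le _ _
      _ = ∑ _s ∈ S, L U := Finset.sum_congr rfl fun s _ =>
          (hpres s.1 s.2).measure_preimage hU.measurableSet.nullMeasurableSet
      _ < ⊤ := by
          rw [Finset.sum_const, nsmul_eq_mul]
          exact ENNReal.mul_lt_top (by finiteness) hLU
  have hzero : L' {0} = 0 := by
    rw [hL', Measure.restrict_apply (measurableSet_singleton 0)]
    simp
  have hinf' : L' Set.univ = ⊤ := by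
    rw [hL', Measure.restrict_apply_univ, hM, Measure.map_apply hdm (measurableSet_singleton 0).compl]
    have h3 : L Set.univ ≤ L {x : TT | d • x = 0} + L ((fun x : TT => d • x) ⁻¹' {0}ᶜ) := by
      refine (measure_mono ?_).trans (measure_union_le _ _)
      intro x _
      by_cases hx : d • x = 0
      · exact Or.inl hx
      · exact Or.inr hx
    rw [hinf] at h3
    by_contra hcon
    have : L {x : TT | d • x = 0} + L ((fun x : TT => d • x) ⁻¹' {0}ᶜ) < ⊤ :=
      ENNReal.add_lt_top.2 ⟨htor, lt_top_iff_ne_top.2 hcon⟩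
    exact absurd (top_le_iff.1 h3) this.ne
  have hLev := lev_of hp hp' hzero hfin
  obtain ⟨ν, hν, hhat⟩ := exists_levy hLev
  have hfa := hfin (1 / (2 * (p : ℝ))) (by positivity)
  refine ⟨ν, hν, fun x => ?_, levy_inv hp' hhat, levy_inv hq' hhat, fun n hn => ?_, ?_⟩
  · refine levy_atomless hLev hinf' (a := (L' {x | 1 / (2 * (p : ℝ)) ≤ ‖x‖}).toReal)
      ENNReal.toReal_nonneg (fun y hy => ?_) hhat x
    rw [ENNReal.ofReal_toReal hfa.ne]
    exact atom_bound hp hp' hy
  · exact levy_roots hLev hhat n hn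
  · exact levy_ne_vol hhat

end Run7.h303.GP.Red
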