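import Pool.Agent.Run7.h303.GP.Sing
import Pool.Agent.Run7.h303.GP.Gap

/-!
The exotic measures: atomless, invariant and singular to Lebesgue measure.
-/

set_option autoImplicit false

open MeasureTheory Filter Topology Set
open scoped ENNReal NNReal

namespace Run7.h303.GP

open Pool.Agent.W764.FB Pool.Agent.W764.SH
open Pool.Agent.H706R2.Ren (U measurableSet_U)
open Pool.Agent.R203.ID (hat f_add f_smul norm_hat_le sym hat_sym integrable_f norm_f)

/-- the exotic measures -/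
structure Exo (p q : ℕ) (μ : Measure T) : Prop where
  prob : IsProbabilityMeasure μ
  inv : Inv p q μ
  na : ∀ x, μ {x} = 0
  ms : μ ⟂ₘ (volume : Measure T)

lemma lin_swap (a b : ℤ) (μ ν : Measure T) [IsProbabilityMeasure μ] [IsProbabilityMeasure ν] :
    lin a b μ ν = lin b a ν μ :=
  Pool.Agent.R203.ID.ext_hat fun m => by rw [hat_lin, hat_lin, mul_comm]

/-- closure -/
theorem Exo.lin {p q : ℕ} (hp : 2 ≤ p) (hq : 2 ≤ q) (hpq : Nat.Coprime p q) {μ ν : Measure T}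
    (h1 : Exo p q μ) (h2 : Exo p q ν) {a b : ℤ} (hab : a ≠ 0 ∨ b ≠ 0) :
    Exo p q (GP.lin a b μ ν) := by
  haveI := h1.prob
  haveI := h2.prob
  refine ⟨inferInstance, lin_inv a b h1.inv h2.inv, ?_,
    lin_ms hp hq hpq a b h1.inv h2.inv h1.ms h2.ms⟩
  rcases hab with ha | hb
  · exact lin_atomless ha b h1.na
  · rw [lin_swap]
    exact lin_atomless hb a h2.na

/-- the measures carried by a section are singular -/
lemma ms_of_essinj {p : ℕ} (hp : 2 ≤ p) {μ : Measure T} [IsProbabilityMeasure μ]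
    (hinv : MeasurePreserving (fun x : T => p • x) μ μ) (h : EssInj p μ) :
    μ ⟂ₘ (volume : Measure T) := by
  refine ms_of_small fun e he => ?_
  obtain ⟨K, cen, ρ, hK, hρ, hρK, hU⟩ := covering hp μ hinv h (κ := e) (c := e / 2) he
    (by positivity)
  refine ⟨U cen ρ, measurableSet_U cen ρ, ?_, ?_⟩
  · rw [← ENNReal.ofReal_toReal (measure_ne_top μ (U cen ρ)ᶜ)]
    exact ENNReal.ofReal_le_ofReal hU
  · unfold U
    refine (measure_iUnion_le _).trans ?_
    rw [tsum_fintype]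
    have hv : ∀ i ∈ (Finset.univ : Finset (Fin K)),
        (volume : Measure T) (Metric.closedBall (cen i) ρ) ≤ ENNReal.ofReal (2 * ρ) := by
      intro w _
      rw [AddCircle.volume_closedBall]
      exact ENNReal.ofReal_le_ofReal (min_le_right _ _)
    refine (Finset.sum_le_card_nsmul _ _ _ hv).trans ?_
    rw [Finset.card_univ, Fintype.card_fin, nsmul_eq_mul,
      ← ENNReal.ofReal_natCast, ← ENNReal.ofReal_mul (by positivity)]
    apply ENNReal.ofReal_le_ofReal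
    have hK1 : (1 : ℝ) ≤ K := by exact_mod_cast hK
    have hK2 : (K : ℝ) ≤ (K : ℝ) ^ 2 := by nlinarith
    nlinarith

/-- a failure of rigidity produces an exotic measure -/
theorem exists_exo {p q : ℕ} (hp : 2 ≤ p) (hq : 2 ≤ q) (hpq : Nat.Coprime p q) {μ : Measure T}
    [IsProbabilityMeasure μ] (hinv : Inv p q μ) (hna : ∀ x, μ {x} = 0)
    (hne : μ ≠ (volume : Measure T)) : ∃ ν : Measure T, Exo p q ν := by
  obtain ⟨D, hDm, hDp, hDq, hD, B, hBm, hB0, hB⟩ := decomp hp hq hpq μ hinv.1 hinv.2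
  have h0 : μ Dᶜ ≠ 0 := by
    intro h0
    apply hne
    have h1 : μ D = 1 := (prob_compl_eq_zero_iff hDm).1 h0
    have h2 : μ.restrict D = μ := Measure.restrict_eq_self_of_ae_mem (by
      rw [ae_iff]
      exact h0)
    rw [h2, h1, one_smul] at hD
    exact hD
  set ν : Measure T := (μ Dᶜ)⁻¹ • μ.restrict Dᶜ with hν
  have hν1 : IsProbabilityMeasure ν := by
    refine ⟨?_⟩
    rw [hν, Measure.smul_apply, Measure.restrict_apply_univ, smul_eq_mul,
      ENNReal.inv_mul_cancel h0 (measure_ne_top _ _)]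
  have hmp : ∀ d : ℕ, MeasurePreserving (fun x : T => d • x) μ μ →
      (∀ᵐ x ∂μ, (d • x ∈ D ↔ x ∈ D)) → MeasurePreserving (fun x : T => d • x) ν ν := by
    intro d hd hdD
    have h3 := restrict_mp hd hDm.compl (hdD.mono fun x hx => not_congr hx)
    refine ⟨h3.measurable, ?_⟩
    rw [hν, Measure.map_smul, h3.map_eq]
  have hinj : EssInj p ν := by
    refine ⟨B, hBm, ?_, hB⟩
    rw [hν, Measure.smul_apply, smul_eq_mul, Measure.restrict_apply hBm.compl]
    have : Bᶜ ∩ Dᶜ = Dᶜ \ B := by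
      ext x; simp only [mem_inter_iff, mem_compl_iff, Set.mem_sdiff]; tauto
    rw [this, hB0, mul_zero]
  refine ⟨ν, hν1, ⟨hmp p hinv.1 hDp, hmp q hinv.2 hDq⟩, fun x => ?_,
    ms_of_essinj hp (hmp p hinv.1 hDp) hinj⟩
  rw [hν, Measure.smul_apply, smul_eq_mul]
  have : (μ.restrict Dᶜ) {x} = 0 :=
    le_antisymm ((Measure.restrict_le_self _).trans (hna x).le) zero_le
  rw [this, mul_zero]

lemma not_exo_volume {p q : ℕ} : ¬ Exo p q (volume : Measure T) := by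
  intro h
  have h1 := h.ms
  rw [Measure.MutuallySingular.self_iff] at h1
  have h3 : (volume : Measure T) univ = 1 := measure_univ
  rw [h1] at h3
  simp at h3

lemma sym_eq (μ : Measure T) : sym 1 μ = lin 1 (-1) μ μ := by
  unfold sym lin
  congr 1
  funext z
  simp [sub_eq_add_neg]

/-- convolution powers -/
noncomputable def pw (ρ : Measure T) : ℕ → Measure T
  | 0 => ρ
  | k + 1 => lin 1 1 (pw ρ k) ρ

theorem exo_pw {p q : ℕ} (hp : 2 ≤ p) (hq : 2 ≤ q) (hpq : Nat.Coprime p q) {ρ : Measure T}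
    (h : Exo p q ρ) (k : ℕ) : Exo p q (pw ρ k) ∧ ∀ m, hat (pw ρ k) m = hat ρ m ^ (k + 1) := by
  haveI := h.prob
  induction k with
  | zero => exact ⟨h, fun m => by simp [pw]⟩
  | succ k ih =>
    haveI := ih.1.prob
    refine ⟨Exo.lin hp hq hpq ih.1 h (Or.inl one_ne_zero), fun m => ?_⟩
    show hat (lin 1 1 (pw ρ k) ρ) m = _
    rw [hat_lin, mul_one, ih.2, pow_succ (hat ρ m) (k + 1)]

/-- **The dichotomy.** -/
theorem exists_near {p q : ℕ} (hp : 2 ≤ p) (hq : 2 ≤ q) (hpq : Nat.Coprime p q) {μ : Measure T}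
    (h : Exo p q μ) {s : ℝ} (hs : s < 1) (hμ : ∀ n : ℤ, n ≠ 0 → ‖hat μ n‖ ≤ s) {ε : ℝ}
    (hε : 0 < ε) : ∃ ν : Measure T, Exo p q ν ∧
      ∀ n : ℤ, n ≠ 0 → ∃ t : ℝ, 0 ≤ t ∧ t ≤ ε ∧ hat ν n = t := by
  haveI := h.prob
  have hs0 : 0 ≤ s := (norm_nonneg _).trans (hμ 1 one_ne_zero)
  have h1 : Exo p q (sym 1 μ) := by
    rw [sym_eq]
    exact Exo.lin hp hq hpq h h (Or.inl one_ne_zero)
  obtain ⟨k, hk⟩ := exists_pow_lt_of_lt_one hε hs
  obtain ⟨h2, h3⟩ := exo_pw hp hq hpq h1 k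
  refine ⟨pw (sym 1 μ) k, h2, fun n hn => ⟨(‖hat μ n‖ ^ 2) ^ (k + 1), by positivity, ?_, ?_⟩⟩
  · have h4 := hμ n hn
    have h5 : ‖hat μ n‖ ^ 2 ≤ s := by
      have : ‖hat μ n‖ ^ 2 ≤ s ^ 2 := by gcongr
      nlinarith
    calc (‖hat μ n‖ ^ 2) ^ (k + 1) ≤ s ^ (k + 1) := by gcongr
      _ ≤ s ^ k := pow_le_pow_of_le_one hs0 hs.le (Nat.le_succ k)
      _ ≤ ε := hk.le
  · rw [h3, hat_sym, mul_one]
    push_cast
    rfl

/-! ### Wiener's lemma -/

lemma four_pow (n : ℕ) (x : T) : (fourier (n : ℤ) x : ℂ) = (fourier 1 x : ℂ) ^ n := by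
  rw [fourier_apply, fourier_apply, natCast_zsmul, one_smul, AddCircle.toCircle_nsmul]
  push_cast
  rfl

lemma cesaro (ν : Measure T) [IsProbabilityMeasure ν] (h0 : ν {0} = 0) :
    Tendsto (fun M : ℕ => (M : ℂ)⁻¹ * ∑ n ∈ Finset.range M, hat ν (n : ℤ)) atTop (𝓝 0) := by
  have h1 : ∀ M : ℕ, (M : ℂ)⁻¹ * ∑ n ∈ Finset.range M, hat ν (n : ℤ) =
      ∫ x, (M : ℂ)⁻¹ * ∑ n ∈ Finset.range M, (fourier (n : ℤ) x : ℂ) ∂ν := by
    intro M
    rw [integral_const_mul, integral_finsetSum _ fun n _ => integrable_f ν _]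
    rfl
  simp_rw [h1]
  have h2 : ∫ _x : T, (0 : ℂ) ∂ν = 0 := integral_zero _ _
  rw [← h2]
  refine tendsto_integral_of_dominated_convergence (fun _ => (1 : ℝ)) ?_ (integrable_const _) ?_ ?_
  · intro M
    exact (Continuous.aestronglyMeasurable (continuous_const.mul
      (continuous_finset_sum _ fun n _ => (fourier (n : ℤ)).continuous)))
  · intro M
    refine Eventually.of_forall fun x => ?_
    rw [norm_mul, norm_inv, Complex.norm_natCast]
    rcases Nat.eq_zero_or_pos M with rfl | hM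
    · simp
    · have hM0 : (0 : ℝ) < M := by exact_mod_cast hM
      rw [inv_mul_le_iff₀ hM0, mul_one]
      refine (norm_sum_le _ _).trans ?_
      simp only [norm_f, Finset.sum_const, Finset.card_range, nsmul_eq_mul, mul_one]
      exact le_rfl
  · have hne : ∀ᵐ x ∂ν, x ≠ 0 := by
      rw [ae_iff]
      simpa using h0
    filter_upwards [hne] with x hx
    set z : ℂ := (fourier 1 x : ℂ) with hz
    have hz1 : z ≠ 1 := by
      intro h
      apply hx
      have h3 : (AddCircle.toCircle (1 • x : T) : ℂ) = 1 := h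
      rw [one_smul] at h3
      have h4 : AddCircle.toCircle x = AddCircle.toCircle (0 : T) := by
        rw [AddCircle.toCircle_zero]
        exact Circle.ext (by rw [h3, Circle.coe_one])
      exact AddCircle.injective_toCircle one_ne_zero h4
    have hzn : ‖z‖ = 1 := norm_f 1 x
    have hd : 0 < ‖z - 1‖ := norm_pos_iff.2 (sub_ne_zero.2 hz1)
    have hb : ∀ M : ℕ, ‖(M : ℂ)⁻¹ * ∑ n ∈ Finset.range M, (fourier (n : ℤ) x : ℂ)‖ ≤
        (M : ℝ)⁻¹ * (2 / ‖z - 1‖) := by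
      intro M
      simp_rw [four_pow]
      rw [← hz, geom_sum_eq hz1, norm_mul, norm_inv, Complex.norm_natCast, norm_div]
      gcongr
      calc ‖z ^ M - 1‖ ≤ ‖z ^ M‖ + ‖(1 : ℂ)‖ := norm_sub_le _ _
        _ = 2 := by rw [norm_pow, hzn, one_pow, norm_one]; norm_num
    refine squeeze_zero_norm hb ?_
    have := (tendsto_inv_atTop_nhds_zero_nat (𝕜 := ℝ)).mul_const (2 / ‖z - 1‖)
    rwa [zero_mul] at this

/-- finitely many coefficients are small for almost all dilates -/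
theorem density_small {μ : Measure T} [IsProbabilityMeasure μ] (h0 : ∀ x, μ {x} = 0)
    (S : Finset ℤ) (hS : ∀ m ∈ S, m ≠ 0) {ε : ℝ} (hε : 0 < ε) :
    Tendsto (fun M : ℕ => ({n : ℕ | n < M ∧ ∀ m ∈ S, ‖hat μ (m * n)‖ ≤ ε}.ncard : ℝ) / M) atTop
      (𝓝 1) := by
  classical
  have h1 : ∀ m ∈ S, Tendsto (fun M : ℕ => (M : ℝ)⁻¹ * ∑ n ∈ Finset.range M,
      ‖hat μ (m * n)‖ ^ 2) atTop (𝓝 0) := by
    intro m hm
    have h2 := cesaro (sym m μ) (Red.sym_zero (hS m hm) h0)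
    have h3 := (Complex.continuous_re.tendsto _).comp h2
    rw [Complex.zero_re] at h3
    refine h3.congr fun M => ?_
    simp only [Function.comp_apply, hat_sym]
    rw [← Complex.ofReal_sum, ← Complex.ofReal_natCast, ← Complex.ofReal_inv,
      ← Complex.ofReal_mul, Complex.ofReal_re]
    simp_rw [mul_comm m]
  have h2 : Tendsto (fun M : ℕ => ∑ m ∈ S, (M : ℝ)⁻¹ * ∑ n ∈ Finset.range M,
      ‖hat μ (m * n)‖ ^ 2) atTop (𝓝 (∑ _m ∈ S, (0 : ℝ))) := tendsto_finset_sum _ h1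
  rw [Finset.sum_const_zero] at h2
  have h3 : Tendsto (fun M : ℕ => 1 - (ε ^ 2)⁻¹ * ∑ m ∈ S, (M : ℝ)⁻¹ * ∑ n ∈ Finset.range M,
      ‖hat μ (m * n)‖ ^ 2) atTop (𝓝 (1 - (ε ^ 2)⁻¹ * 0)) := (h2.const_mul _).const_sub 1
  rw [mul_zero, sub_zero] at h3
  have he2 : 0 < ε ^ 2 := by positivity
  have hcount : ∀ M : ℕ, {n : ℕ | n < M ∧ ∀ m ∈ S, ‖hat μ (m * n)‖ ≤ ε}.ncard =
      ((Finset.range M).filter fun n : ℕ => ∀ m ∈ S, ‖hat μ (m * n)‖ ≤ ε).card := by
    intro M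
    rw [← Set.ncard_coe_finset]
    congr 1
    ext n
    simp
  refine tendsto_of_tendsto_of_tendsto_of_le_of_le' h3 tendsto_const_nhds ?_ ?_
  · filter_upwards [eventually_ge_atTop 1] with M hM
    have hM0 : (0 : ℝ) < M := by exact_mod_cast hM
    rw [hcount]
    have h4 : ∑ m ∈ S, (M : ℝ)⁻¹ * ∑ n ∈ Finset.range M, ‖hat μ (m * n)‖ ^ 2 =
        (M : ℝ)⁻¹ * ∑ n ∈ Finset.range M, ∑ m ∈ S, ‖hat μ (m * n)‖ ^ 2 := by
      rw [← Finset.mul_sum, Finset.sum_comm]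
    have h5 : (((Finset.range M).filter fun n : ℕ => ¬ ∀ m ∈ S, ‖hat μ (m * n)‖ ≤ ε).card : ℝ) *
        ε ^ 2 ≤ ∑ n ∈ Finset.range M, ∑ m ∈ S, ‖hat μ (m * n)‖ ^ 2 := by
      rw [← nsmul_eq_mul]
      refine (Finset.card_nsmul_le_sum _ (fun n : ℕ => ∑ m ∈ S, ‖hat μ (m * n)‖ ^ 2) (ε ^ 2) ?_).trans
        (Finset.sum_le_sum_of_subset_of_nonneg (Finset.filter_subset _ _) fun i _ _ =>
          Finset.sum_nonneg fun m _ => by positivity)
      intro n hn
      rw [Finset.mem_filter] at hn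
      have hn2 := hn.2
      push Not at hn2
      obtain ⟨m, hm, hm2⟩ := hn2
      calc ε ^ 2 ≤ ‖hat μ (m * n)‖ ^ 2 := by gcongr
        _ ≤ _ := Finset.single_le_sum (f := fun m => ‖hat μ (m * n)‖ ^ 2)
          (fun i _ => by positivity) hm
    have h6 : ((Finset.range M).filter fun n : ℕ => ∀ m ∈ S, ‖hat μ (m * n)‖ ≤ ε).card +
        ((Finset.range M).filter fun n : ℕ => ¬ ∀ m ∈ S, ‖hat μ (m * n)‖ ≤ ε).card = M := by
      rw [Finset.card_filter_add_card_filter_not, Finset.card_range]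
    have h7 : (((Finset.range M).filter fun n : ℕ => ∀ m ∈ S, ‖hat μ (m * n)‖ ≤ ε).card : ℝ) +
        (((Finset.range M).filter fun n : ℕ => ¬ ∀ m ∈ S, ‖hat μ (m * n)‖ ≤ ε).card : ℝ) = M := by
      exact_mod_cast h6
    rw [h4, le_div_iff₀ hM0]
    have h8 : (1 - (ε ^ 2)⁻¹ * ((M : ℝ)⁻¹ * ∑ n ∈ Finset.range M, ∑ m ∈ S,
        ‖hat μ (m * n)‖ ^ 2)) * M = M - (∑ n ∈ Finset.range M, ∑ m ∈ S,
        ‖hat μ (m * n)‖ ^ 2) / ε ^ 2 := by
      field_simp
    rw [h8]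
    rw [← le_div_iff₀ he2] at h5
    linarith
  · filter_upwards [eventually_ge_atTop 1] with M hM
    have hM0 : (0 : ℝ) < M := by exact_mod_cast hM
    rw [hcount, div_le_one hM0]
    have := Finset.card_filter_le (Finset.range M) fun n : ℕ => ∀ m ∈ S, ‖hat μ (m * n)‖ ≤ ε
    rw [Finset.card_range] at this
    exact_mod_cast this

end Run7.h303.GP
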