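import Pool.Agent.W764.HL.Core
import Pool.Agent.R203.ID.Fou

/-!
The invariant measures which are singular to Lebesgue measure: closure under the laws of
`a x + b y` for independent `x`, `y`.
-/

set_option autoImplicit false

open MeasureTheory Filter Topology Set
open scoped ENNReal NNReal

namespace Run7.h303.GP

open Pool.Agent.W764.FB Pool.Agent.W764.SH
open Pool.Agent.H706R2.Ren (U measurableSet_U)
open Pool.Agent.R203.ID (hat f_add f_smul)

/-- invariance under both maps -/
def Inv (p q : ℕ) (μ : Measure T) : Prop :=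
  MeasurePreserving (fun x : T => p • x) μ μ ∧ MeasurePreserving (fun x : T => q • x) μ μ

/-- a criterion for singularity -/
lemma ms_of_small {μ : Measure T}
    (h : ∀ e : ℝ, 0 < e → ∃ s : Set T, MeasurableSet s ∧ μ sᶜ ≤ ENNReal.ofReal e ∧
      (volume : Measure T) s ≤ ENNReal.ofReal e) : μ ⟂ₘ (volume : Measure T) := by
  have h' : ∀ n : ℕ, ∃ s : Set T, MeasurableSet s ∧ μ sᶜ ≤ ENNReal.ofReal ((1 / 2 : ℝ) ^ n) ∧
      (volume : Measure T) s ≤ ENNReal.ofReal ((1 / 2 : ℝ) ^ n) := fun n => h _ (by positivity)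
  choose s hs h1 h2 using h'
  refine ⟨(limsup s atTop)ᶜ, (MeasurableSet.measurableSet_limsup hs).compl, ?_, ?_⟩
  · rw [limsup_eq_iInf_iSup_of_nat]
    simp only [iInf_eq_iInter, iSup_eq_iUnion, compl_iInter, compl_iUnion]
    refine measure_iUnion_null fun n => ?_
    have hn : ∀ m, n ≤ m → μ (⋂ i, ⋂ (_ : i ≥ n), (s i)ᶜ) ≤ ENNReal.ofReal ((1 / 2 : ℝ) ^ m) :=
      fun m hm => (measure_mono (iInter₂_subset m hm)).trans (h1 m)
    have ht : Tendsto (fun m : ℕ => ENNReal.ofReal ((1 / 2 : ℝ) ^ m)) atTop (𝓝 0) := by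
      have := ENNReal.tendsto_ofReal
        (tendsto_pow_atTop_nhds_zero_of_lt_one (r := (1 / 2 : ℝ)) (by norm_num) (by norm_num))
      rwa [ENNReal.ofReal_zero] at this
    exact le_antisymm (ge_of_tendsto ht ((eventually_ge_atTop n).mono hn)) zero_le
  · rw [compl_compl]
    refine measure_limsup_atTop_eq_zero ?_
    have : ∑' i, (volume : Measure T) (s i) ≤ ∑' i : ℕ, ENNReal.ofReal ((1 / 2 : ℝ) ^ i) :=
      ENNReal.tsum_le_tsum h2
    refine ne_top_of_le_ne_top ?_ this
    rw [← ENNReal.ofReal_tsum_of_nonneg (fun n => by positivity)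
      (summable_geometric_of_lt_one (by norm_num) (by norm_num))]
    exact ENNReal.ofReal_ne_top

/-- singular invariant measures are carried by a section of `x ↦ p x` -/
lemma essinj_of_ms {p q : ℕ} (hp : 2 ≤ p) (hq : 2 ≤ q) (hpq : Nat.Coprime p q) {μ : Measure T}
    [IsProbabilityMeasure μ] (hinv : Inv p q μ) (hs : μ ⟂ₘ (volume : Measure T)) : EssInj p μ := by
  obtain ⟨D, hDm, hDp, hDq, hD, B, hBm, hB0, hB⟩ := decomp hp hq hpq μ hinv.1 hinv.2
  have hD0 : μ D = 0 := by
    have h1 : μ.restrict D ⟂ₘ (volume : Measure T) := hs.restrict D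
    rw [hD] at h1
    by_contra hne
    have h2 : (volume : Measure T) ⟂ₘ (volume : Measure T) :=
      h1.mono_ac (Measure.absolutelyContinuous_smul hne) Measure.AbsolutelyContinuous.rfl
    rw [Measure.MutuallySingular.self_iff] at h2
    have h3 : (volume : Measure T) univ = 1 := measure_univ
    rw [h2] at h3
    simp at h3
  refine ⟨B, hBm, ?_, hB⟩
  refine measure_mono_null (t := D ∪ (Dᶜ \ B)) ?_ (measure_union_null hD0 hB0)
  intro x hx
  by_cases hxD : x ∈ D
  · exact Or.inl hxD
  · exact Or.inr ⟨hxD, hx⟩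

/-- the law of `a x + b y` -/
noncomputable def lin (a b : ℤ) (μ ν : Measure T) : Measure T :=
  (μ.prod ν).map fun z => a • z.1 + b • z.2

lemma meas_lin (a b : ℤ) : Measurable fun z : T × T => a • z.1 + b • z.2 := by fun_prop

instance lin_prob (a b : ℤ) (μ ν : Measure T) [IsProbabilityMeasure μ] [IsProbabilityMeasure ν] :
    IsProbabilityMeasure (lin a b μ ν) :=
  Measure.isProbabilityMeasure_map (meas_lin a b).aemeasurable

lemma hat_lin (a b : ℤ) (μ ν : Measure T) [IsProbabilityMeasure μ] [IsProbabilityMeasure ν]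
    (m : ℤ) : hat (lin a b μ ν) m = hat μ (m * a) * hat ν (m * b) := by
  unfold hat lin
  rw [integral_map (by fun_prop) (fourier m).continuous.aestronglyMeasurable]
  simp only [f_add, f_smul]
  exact integral_prod_mul (fun x : T => (fourier (m * a) x : ℂ))
    (fun x : T => (fourier (m * b) x : ℂ))

lemma lin_mp (a b : ℤ) {μ ν : Measure T} [IsProbabilityMeasure μ] [IsProbabilityMeasure ν] {d : ℕ}
    (h1 : MeasurePreserving (fun x : T => d • x) μ μ)
    (h2 : MeasurePreserving (fun x : T => d • x) ν ν) :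
    MeasurePreserving (fun x : T => d • x) (lin a b μ ν) (lin a b μ ν) := by
  rw [Pool.Agent.R203.ID.inv_iff] at h1 h2 ⊢
  intro m
  rw [hat_lin, hat_lin, show m * (d : ℤ) * a = m * a * d by ring,
    show m * (d : ℤ) * b = m * b * d by ring, h1, h2]

lemma lin_inv (a b : ℤ) {p q : ℕ} {μ ν : Measure T} [IsProbabilityMeasure μ]
    [IsProbabilityMeasure ν] (h1 : Inv p q μ) (h2 : Inv p q ν) : Inv p q (lin a b μ ν) :=
  ⟨lin_mp a b h1.1 h2.1, lin_mp a b h1.2 h2.2⟩

lemma lin_atomless {a : ℤ} (ha : a ≠ 0) (b : ℤ) {μ ν : Measure T} [IsProbabilityMeasure μ]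
    [IsProbabilityMeasure ν] (h : ∀ x, μ {x} = 0) (x : T) : lin a b μ ν {x} = 0 := by
  unfold lin
  have hm : MeasurableSet ((fun z : T × T => a • z.1 + b • z.2) ⁻¹' {x}) :=
    (meas_lin a b) (measurableSet_singleton x)
  rw [Measure.map_apply (meas_lin a b) (measurableSet_singleton x), Measure.prod_apply_symm hm,
    lintegral_eq_zero_iff (measurable_measure_prodMk_right hm)]
  refine Eventually.of_forall fun y => ?_
  have hfin : {x : T | a • x = 0}.Finite := by
    have h1 := AddCircle.finite_torsion (p := (1 : ℝ)) (by omega : 0 < a.natAbs)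
    refine h1.subset ?_
    intro x hx
    have hx' : a • x = 0 := hx
    show a.natAbs • x = 0
    rcases Int.natAbs_eq a with he | he
    · rw [← natCast_zsmul, ← he]; exact hx'
    · rw [← natCast_zsmul]
      have : (a.natAbs : ℤ) = -a := by omega
      rw [this, neg_smul, hx', neg_zero]
  set S : Set T := (fun w => (w, y)) ⁻¹' ((fun z : T × T => a • z.1 + b • z.2) ⁻¹' {x}) with hS
  show μ S = 0
  have : NullSingletonClass μ := ⟨h⟩
  rcases S.eq_empty_or_nonempty with h0 | ⟨w0, hw0⟩
  · rw [h0, measure_empty]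
  · have hsub : S ⊆ (fun u => w0 + u) '' {x : T | a • x = 0} := by
      intro w hw
      refine ⟨w - w0, ?_, by simp⟩
      have e1 : a • w0 + b • y = x := hw0
      have e2 : a • w + b • y = x := hw
      show a • (w - w0) = 0
      rw [smul_sub, sub_eq_zero]
      exact add_right_cancel (e2.trans e1.symm)
    exact ((hfin.image _).subset hsub).measure_zero μ

/-- **Linear combinations of independent variables with singular invariant laws.** -/
theorem lin_ms {p q : ℕ} (hp : 2 ≤ p) (hq : 2 ≤ q) (hpq : Nat.Coprime p q) (a b : ℤ)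
    {μ ν : Measure T} [IsProbabilityMeasure μ] [IsProbabilityMeasure ν] (h1 : Inv p q μ)
    (h2 : Inv p q ν) (s1 : μ ⟂ₘ (volume : Measure T)) (s2 : ν ⟂ₘ (volume : Measure T)) :
    lin a b μ ν ⟂ₘ (volume : Measure T) := by
  set M : Measure T := (2 : ℝ≥0∞)⁻¹ • (μ + ν) with hM
  have hMp : IsProbabilityMeasure M := by
    refine ⟨?_⟩
    rw [hM, Measure.smul_apply, Measure.add_apply, measure_univ, measure_univ, smul_eq_mul,
      one_add_one_eq_two]
    exact ENNReal.inv_mul_cancel (by norm_num) (by norm_num)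
  have hMi : ∀ d : ℕ, MeasurePreserving (fun x : T => d • x) μ μ →
      MeasurePreserving (fun x : T => d • x) ν ν →
      MeasurePreserving (fun x : T => d • x) M M := by
    intro d k1 k2
    refine ⟨k1.measurable, ?_⟩
    rw [hM, Measure.map_smul, Measure.map_add _ _ k1.measurable, k1.map_eq, k2.map_eq]
  have hMinv : Inv p q M := ⟨hMi p h1.1 h2.1, hMi q h1.2 h2.2⟩
  have hMs : M ⟂ₘ (volume : Measure T) := (s1.add_left s2).smul _
  have hE : EssInj p M := essinj_of_ms hp hq hpq hMinv hMs
  have hle1 : ∀ s, μ s ≤ 2 * M s := by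
    intro s
    rw [hM, Measure.smul_apply, Measure.add_apply, smul_eq_mul, ← mul_assoc,
      ENNReal.mul_inv_cancel (by norm_num) (by norm_num), one_mul]
    exact le_self_add
  have hle2 : ∀ s, ν s ≤ 2 * M s := by
    intro s
    rw [hM, Measure.smul_apply, Measure.add_apply, smul_eq_mul, ← mul_assoc,
      ENNReal.mul_inv_cancel (by norm_num) (by norm_num), one_mul]
    exact le_add_self
  refine ms_of_small fun e he => ?_
  set A : ℝ := |(a : ℝ)| + |(b : ℝ)| with hA
  have hA0 : 0 ≤ A := by positivity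
  obtain ⟨K, cen, ρ, hK, hρ, hρK, hU⟩ := covering hp M hMinv.1 hE (κ := e / 4)
    (c := e / (2 * (A + 1))) (by positivity) (by positivity)
  set V : Set T := U cen ρ with hV
  have hVm : MeasurableSet V := measurableSet_U cen ρ
  set s : Set T := ⋃ w ∈ (Finset.univ : Finset (Fin K × Fin K)),
    Metric.closedBall (a • cen w.1 + b • cen w.2) (A * ρ) with hs
  have hsm : MeasurableSet s :=
    Finset.measurableSet_biUnion _ fun w _ => Metric.isClosed_closedBall.measurableSet
  have hMV : M Vᶜ ≤ ENNReal.ofReal (e / 4) := by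
    rw [← ENNReal.ofReal_toReal (measure_ne_top M Vᶜ)]
    exact ENNReal.ofReal_le_ofReal hU
  refine ⟨s, hsm, ?_, ?_⟩
  · unfold lin
    rw [Measure.map_apply (meas_lin a b) hsm.compl]
    have hsub : (fun z : T × T => a • z.1 + b • z.2) ⁻¹' sᶜ ⊆ (Vᶜ ×ˢ univ) ∪ (univ ×ˢ Vᶜ) := by
      intro z hz
      by_contra hcon
      simp only [mem_union, mem_prod, mem_compl_iff, mem_univ, and_true, true_and, not_or,
        not_not] at hcon
      obtain ⟨hz1, hz2⟩ := hcon
      rw [hV] at hz1 hz2
      unfold U at hz1 hz2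
      obtain ⟨i, hi⟩ := mem_iUnion.1 hz1
      obtain ⟨j, hj⟩ := mem_iUnion.1 hz2
      rw [Metric.mem_closedBall, dist_eq_norm] at hi hj
      apply hz
      rw [hs, mem_iUnion₂]
      refine ⟨(i, j), Finset.mem_univ _, ?_⟩
      rw [Metric.mem_closedBall, dist_eq_norm]
      have e1 : a • z.1 + b • z.2 - (a • cen i + b • cen j) = a • (z.1 - cen i) + b • (z.2 - cen j) := by
        rw [smul_sub, smul_sub]; abel
      show ‖a • z.1 + b • z.2 - (a • cen i + b • cen j)‖ ≤ A * ρ
      rw [e1]
      have n1 : ‖a • (z.1 - cen i)‖ ≤ |(a : ℝ)| * ρ := by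
        refine (norm_zsmul_le _ _).trans ?_
        rw [Int.norm_eq_abs]
        gcongr
      have n2 : ‖b • (z.2 - cen j)‖ ≤ |(b : ℝ)| * ρ := by
        refine (norm_zsmul_le _ _).trans ?_
        rw [Int.norm_eq_abs]
        gcongr
      calc _ ≤ ‖a • (z.1 - cen i)‖ + ‖b • (z.2 - cen j)‖ := norm_add_le _ _
        _ ≤ |(a : ℝ)| * ρ + |(b : ℝ)| * ρ := add_le_add n1 n2
        _ = A * ρ := by rw [hA]; ring
    calc (μ.prod ν) ((fun z : T × T => a • z.1 + b • z.2) ⁻¹' sᶜ)
        ≤ (μ.prod ν) (Vᶜ ×ˢ univ) + (μ.prod ν) (univ ×ˢ Vᶜ) :=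
          (measure_mono hsub).trans (measure_union_le _ _)
      _ = μ Vᶜ + ν Vᶜ := by
          rw [Measure.prod_prod, Measure.prod_prod, measure_univ, measure_univ, mul_one, one_mul]
      _ ≤ 2 * M Vᶜ + 2 * M Vᶜ := add_le_add (hle1 _) (hle2 _)
      _ ≤ 2 * ENNReal.ofReal (e / 4) + 2 * ENNReal.ofReal (e / 4) := by gcongr
      _ = ENNReal.ofReal e := by
          rw [← two_mul, ← mul_assoc]
          have : (2 : ℝ≥0∞) * 2 = ENNReal.ofReal 4 := by
            rw [← ENNReal.ofReal_ofNat, ← ENNReal.ofReal_mul (by norm_num)]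
            norm_num
          rw [this, ← ENNReal.ofReal_mul (by norm_num)]
          congr 1
          ring
  · refine (measure_biUnion_finset_le _ _).trans ?_
    have hv : ∀ w ∈ (Finset.univ : Finset (Fin K × Fin K)),
        (volume : Measure T) (Metric.closedBall (a • cen w.1 + b • cen w.2) (A * ρ)) ≤
          ENNReal.ofReal (2 * (A * ρ)) := by
      intro w _
      rw [AddCircle.volume_closedBall]
      exact ENNReal.ofReal_le_ofReal (min_le_right _ _)
    refine (Finset.sum_le_card_nsmul _ _ _ hv).trans ?_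
    rw [Finset.card_univ, Fintype.card_prod, Fintype.card_fin, nsmul_eq_mul,
      ← ENNReal.ofReal_natCast, ← ENNReal.ofReal_mul (by positivity)]
    apply ENNReal.ofReal_le_ofReal
    push_cast
    calc (K : ℝ) * K * (2 * (A * ρ)) = 2 * A * (ρ * (K : ℝ) ^ 2) := by ring
      _ ≤ 2 * A * (e / (2 * (A + 1))) := by gcongr
      _ = e * (A / (A + 1)) := by field_simp
      _ ≤ e * 1 := by
          gcongr
          rw [div_le_one (by positivity)]
          linarith
      _ = e := mul_one e

end Run7.h303.GP
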